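import Pool.Agent.Helper17.SA.St

set_option autoImplicit false

/-! Project SA, module TRN: transpositions in a Sylow 2-subgroup (helper4). -/

namespace Pool.Agent.Helper4.SA

open Equiv Pool.Agent.Helper17.SA

/-- permutations preserving the blocks of two consecutive points -/
def KK (m : ℕ) : Subgroup (Perm (Fin m)) where
  carrier := {y | ∀ a : Fin m, (y a : ℕ) / 2 = (a : ℕ) / 2}
  mul_mem' := by
    intro a b ha hb i
    rw [Perm.mul_apply, ha, hb]
  one_mem' := by
    intro i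
    rfl
  inv_mem' := by
    intro a ha i
    have := ha (a⁻¹ i)
    simp only [Perm.inv_def, Equiv.apply_symm_apply] at this
    exact this.symm

theorem KK_sq (m : ℕ) (y : Perm (Fin m)) (hy : y ∈ KK m) : y ^ 2 = 1 := by
  ext a
  have h1 : ((y a : Fin m) : ℕ) / 2 = (a : ℕ) / 2 := hy a
  have h2 : ((y (y a) : Fin m) : ℕ) / 2 = ((y a : Fin m) : ℕ) / 2 := hy (y a)
  rw [pow_two, Perm.mul_apply, Perm.one_apply]
  by_cases h : y a = a
  · rw [h, h]
  · have h3 : y (y a) ≠ y a := fun hh => h (y.injective hh)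
    have h4 : ((y a : Fin m) : ℕ) ≠ (a : ℕ) := fun hh => h (Fin.ext hh)
    have h5 : ((y (y a) : Fin m) : ℕ) ≠ ((y a : Fin m) : ℕ) := fun hh => h3 (Fin.ext hh)
    omega

theorem KK_p (m : ℕ) : IsPGroup 2 (KK m) := by
  intro g
  refine ⟨1, ?_⟩
  apply Subtype.ext
  have := KK_sq m g.1 g.2
  simpa using this

theorem swap_mem (m : ℕ) (i : ℕ) (h1 : 2 * i < m) (h2 : 2 * i + 1 < m) :
    swap (⟨2 * i, h1⟩ : Fin m) ⟨2 * i + 1, h2⟩ ∈ KK m := by
  intro a
  rw [swap_apply_def]
  split_ifs with ha hb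
  · rw [ha]
    show (2 * i + 1) / 2 = (2 * i) / 2
    omega
  · rw [hb]
    show (2 * i) / 2 = (2 * i + 1) / 2
    omega
  · rfl

theorem pTRN : StTRN := by
  intro m P
  classical
  obtain ⟨P0, hP0⟩ := (KK_p m).exists_le_sylow
  obtain ⟨g, hg⟩ := MulAction.exists_smul_eq (Perm (Fin m)) P0 P
  have hmem : ∀ y ∈ KK m, g * y * g⁻¹ ∈ (P : Subgroup (Perm (Fin m))) := by
    intro y hy
    rw [← hg]
    rw [Sylow.coe_subgroup_smul]
    rw [Subgroup.mem_pointwise_smul_iff_inv_smul_mem]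
    have : (MulAut.conj g)⁻¹ • (g * y * g⁻¹) = y := by
      rw [← map_inv]
      simp [MulAut.smul_def, mul_assoc]
    rw [this]
    exact hP0 hy
  unfold cc
  have hlt1 : ∀ i : Fin (m / 2), 2 * (i : ℕ) < m := by
    intro i; have := i.2; omega
  have hlt2 : ∀ i : Fin (m / 2), 2 * (i : ℕ) + 1 < m := by
    intro i; have := i.2; omega
  let f : Fin (m / 2) → {y : Perm (Fin m) // y ∈ (P : Subgroup (Perm (Fin m))) ∧
      y.cycleType = Multiset.replicate 1 2} := fun i =>
    ⟨g * swap (⟨2 * i, hlt1 i⟩ : Fin m) ⟨2 * i + 1, hlt2 i⟩ * g⁻¹, hmem _ (swap_mem m i _ _), by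
      rw [Perm.cycleType_conj]
      have hne : (⟨2 * i, hlt1 i⟩ : Fin m) ≠ ⟨2 * i + 1, hlt2 i⟩ := by
        intro h
        have := congrArg Fin.val h
        simp at this
      rw [(Perm.isCycle_swap hne).cycleType, Perm.card_support_swap hne]
      rfl⟩
  have hf : Function.Injective f := by
    intro i j hij
    have h1 : g * swap (⟨2 * i, hlt1 i⟩ : Fin m) ⟨2 * i + 1, hlt2 i⟩ * g⁻¹ =
      g * swap (⟨2 * j, hlt1 j⟩ : Fin m) ⟨2 * j + 1, hlt2 j⟩ * g⁻¹ := congrArg Subtype.val hij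
    have h2 : swap (⟨2 * i, hlt1 i⟩ : Fin m) ⟨2 * i + 1, hlt2 i⟩ =
      swap (⟨2 * j, hlt1 j⟩ : Fin m) ⟨2 * j + 1, hlt2 j⟩ := by
      have := mul_right_cancel h1
      exact mul_left_cancel this
    have h3 := congrArg (fun s : Perm (Fin m) => s ⟨2 * i, hlt1 i⟩) h2
    simp only [swap_apply_left] at h3
    rw [swap_apply_def] at h3
    split_ifs at h3 with ha hb
    · have := congrArg Fin.val ha
      simp only at this
      apply Fin.ext
      omega
    · have := congrArg Fin.val hb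
      simp only at this
      omega
    · have := congrArg Fin.val h3
      simp only at this
      omega
  have := Nat.card_le_card_of_injective f hf
  simpa using this

end Pool.Agent.Helper4.SA
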